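import Pool.Agent.H37.CTN.Stmts
import Pool.Agent.H46.CNJ.RKP
import Pool.Agent.H2.CND.CNG

/-!
# Row RKX of the board ctn
-/

set_option autoImplicit false

namespace Pool.CND

theorem rkx_one (hRKP : S_RKP) (p : ℕ) (k : Type) [Field k] [IsAlgClosed k] [CharP k p]
    (G : Type) [Group G] (r : ℕ) (hp : p.Prime) (h : RankOne p G r) : NG k G = r := by
  have h1 := hRKP p 1 k (fun _ => G) (fun _ => r) hp (fun _ => h)
  have e : (Fin 1 → G) ≃* G :=
    { toFun := fun f => f 0
      invFun := fun g _ => g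
      left_inv := fun f => by
        funext i
        rw [Subsingleton.elim i 0]
      right_inv := fun g => rfl
      map_mul' := fun f g => rfl }
  rw [cng_thm k _ _ ⟨e⟩] at h1
  rw [h1]
  simp

theorem rkx_thm (hPRF : S_PRF) (hHC1 : S_HC1) (hHC2 : S_HC2) (hHC3 : S_HC3) (hHC4 : S_HC4)
    (hT62 : S_T62) (hRKP : S_RKP) : S_RKX := by
  intro p n k _ _ hchar G _ r hp hr
  have key : ∀ i, Finite (G i) ∧ HasCover k (G i) ∧ NG k (G i) = r i := by
    intro i
    rcases hr i with h | ⟨hp2, F, _, f, q, C, _, hf, hq, hF, hC, ⟨e⟩, hri⟩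
    · have h3 : NG k (G i) = r i := rkx_one hRKP p k (G i) (r i) hp h
      rcases h with ⟨F, _, f, q, C, _, hf, hq, hF, hC, ⟨e⟩, hri⟩ |
        ⟨F, _, f, q, σ, C, _, hf, hq, hF, hσ, hC, ⟨e⟩, hri⟩ |
        ⟨hp2, F, _, hcF, m, q, φ, hm, hq, hF, hφ, ⟨e⟩, hri⟩
      · have hfin : Finite F :=
          Nat.finite_of_card_ne_zero (by rw [hF, hq]; exact pow_ne_zero _ hp.ne_zero)
        exact ⟨Finite.of_equiv _ e.symm.toEquiv,
          rkp_hc e (hHC1 p k F f q hp hchar hf hq hF C), h3⟩
      · have hfin : Finite F :=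
          Nat.finite_of_card_ne_zero (by
            rw [hF, hq]; exact pow_ne_zero _ (pow_ne_zero _ hp.ne_zero))
        have hfin' : Finite (SU3 σ) := inferInstance
        exact ⟨Finite.of_equiv _ e.symm.toEquiv,
          rkp_hc e (hHC2 p k F f q σ hp hchar hf hq hF hσ C), h3⟩
      · subst hp2
        have hfin : Finite F := Nat.finite_of_card_ne_zero (by rw [hF, hq]; positivity)
        have hfin' : Finite (Sz φ) := inferInstance
        exact ⟨Finite.of_equiv _ e.symm.toEquiv,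
          rkp_hc e (hHC3 m q k F φ hchar hm hq hF hφ), h3⟩
    · have hfin : Finite F :=
        Nat.finite_of_card_ne_zero (by rw [hF, hq]; exact pow_ne_zero _ hp.ne_zero)
      refine ⟨Finite.of_equiv _ e.symm.toEquiv, rkp_hc e (hHC4 p k F f q hp hchar hf hq hF C), ?_⟩
      rw [cng_thm k _ _ ⟨e⟩, hT62 p k F f q hp hp2 hchar hf hq hF C hC, hri]
  have hfin : ∀ i, Finite (G i) := fun i => (key i).1
  rw [hPRF p n k G hp fun i => (key i).2.1]
  congr 1
  funext i
  exact (key i).2.2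

end Pool.CND
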